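import Mathlib
import Pool.Agent.Helper362.IdealD
import Pool.Agent.Helper234.L1MAP.LDefs

set_option autoImplicit false

namespace Pool.Agent.H547Z.MAP

open Pool.Agent.Helper234.L1MAP (HasMAP RenormFailsMAP)
open Pool.Agent.Helper362.Ideals (plr hb_sep comp' comp'_sum)
open NormedSpace

variable {𝕜 : Type} [RCLike 𝕜]

section Dual

variable {X : Type} [NormedAddCommGroup X] [NormedSpace 𝕜 X]

/-- finite-rank contractions -/
def FR (𝕜 : Type) [RCLike 𝕜] (X : Type) [NormedAddCommGroup X] [NormedSpace 𝕜 X] :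
    Set (X →L[𝕜] X) :=
  {T | FiniteDimensional 𝕜 (LinearMap.range (T : X →ₗ[𝕜] X)) ∧ ‖T‖ ≤ 1}

theorem FR_conv (S : X →L[𝕜] X) (hS : S ∈ FR 𝕜 X) (T : X →L[𝕜] X) (hT : T ∈ FR 𝕜 X)
    (s t : ℝ) (hs : 0 ≤ s) (ht : 0 ≤ t) (hst : s + t = 1) :
    (s : 𝕜) • S + (t : 𝕜) • T ∈ FR 𝕜 X := by
  refine ⟨?_, ?_⟩
  · have h1 := hS.1
    have h2 := hT.1
    have h3 : LinearMap.range (((s : 𝕜) • S + (t : 𝕜) • T : X →L[𝕜] X) : X →ₗ[𝕜] X) ≤
        LinearMap.range (S : X →ₗ[𝕜] X) ⊔ LinearMap.range (T : X →ₗ[𝕜] X) := by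
      rintro _ ⟨x, rfl⟩
      exact Submodule.add_mem_sup (Submodule.smul_mem _ (s : 𝕜) ⟨x, rfl⟩)
        (Submodule.smul_mem _ (t : 𝕜) ⟨x, rfl⟩)
    exact Submodule.finiteDimensional_of_le h3
  · refine (norm_add_le _ _).trans ?_
    rw [norm_smul, norm_smul, RCLike.norm_ofReal, RCLike.norm_ofReal, abs_of_nonneg hs,
      abs_of_nonneg ht]
    have h1 := hS.2
    have h2 := hT.2
    nlinarith

/-- the adjoint of an operator on the dual, restricted to the space -/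
noncomputable def adj (S : StrongDual 𝕜 X →L[𝕜] StrongDual 𝕜 X) :
    X →L[𝕜] StrongDual 𝕜 (StrongDual 𝕜 X) :=
  ((ContinuousLinearMap.compL 𝕜 (StrongDual 𝕜 X) (StrongDual 𝕜 X) 𝕜).flip S) ∘L
    inclusionInDoubleDual 𝕜 X

theorem adj_apply (S : StrongDual 𝕜 X →L[𝕜] StrongDual 𝕜 X) (x : X) (f : StrongDual 𝕜 X) :
    adj S x f = S f x := rfl

theorem adj_norm (S : StrongDual 𝕜 X →L[𝕜] StrongDual 𝕜 X) (hS : ‖S‖ ≤ 1) (x : X) :
    ‖adj S x‖ ≤ ‖x‖ := by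
  refine ContinuousLinearMap.opNorm_le_bound _ (norm_nonneg _) fun f => ?_
  rw [adj_apply]
  refine ((S f).le_opNorm x).trans ?_
  have h1 : ‖S f‖ ≤ ‖f‖ := (S.le_opNorm f).trans (by
    have := norm_nonneg f
    nlinarith)
  rw [mul_comm]
  exact mul_le_mul_of_nonneg_left h1 (norm_nonneg _)

theorem fd_aux {V : Type} [NormedAddCommGroup V] [NormedSpace 𝕜 V] (S : V →L[𝕜] V)
    (hS : FiniteDimensional 𝕜 (LinearMap.range (S : V →ₗ[𝕜] V))) :
    ∃ G : Submodule 𝕜 (StrongDual 𝕜 V), FiniteDimensional 𝕜 G ∧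
      ∀ g : StrongDual 𝕜 V, g ∘L S ∈ G := by
  let S' : V →L[𝕜] (LinearMap.range (S : V →ₗ[𝕜] V)) := S.codRestrict _ (fun f => ⟨f, rfl⟩)
  let P : (StrongDual 𝕜 (LinearMap.range (S : V →ₗ[𝕜] V))) →ₗ[𝕜] StrongDual 𝕜 V :=
    { toFun := fun g => g ∘L S'
      map_add' := fun g h => by ext f; rfl
      map_smul' := fun a g => by ext f; rfl }
  refine ⟨LinearMap.range P, inferInstance, fun g => ⟨g ∘L Submodule.subtypeL _, ?_⟩⟩
  ext f
  rfl

theorem adj_fd (S : StrongDual 𝕜 X →L[𝕜] StrongDual 𝕜 X)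
    (hS : FiniteDimensional 𝕜 (LinearMap.range (S : StrongDual 𝕜 X →ₗ[𝕜] StrongDual 𝕜 X))) :
    FiniteDimensional 𝕜
      (LinearMap.range (adj S : X →ₗ[𝕜] StrongDual 𝕜 (StrongDual 𝕜 X))) := by
  obtain ⟨G, hG1, hG2⟩ := fd_aux S hS
  have h2 : LinearMap.range (adj S : X →ₗ[𝕜] StrongDual 𝕜 (StrongDual 𝕜 X)) ≤ G := by
    rintro _ ⟨x, rfl⟩
    exact hG2 (inclusionInDoubleDual 𝕜 X x)
  exact Submodule.finiteDimensional_of_le h2

/-- a finite-rank contraction on the dual yields an almost contraction on the space -/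
theorem exists_predual (S : StrongDual 𝕜 X →L[𝕜] StrongDual 𝕜 X)
    (hS : S ∈ FR 𝕜 (StrongDual 𝕜 X)) (F : Submodule 𝕜 (StrongDual 𝕜 X))
    [FiniteDimensional 𝕜 F] (η : ℝ) (hη : 0 < η) :
    ∃ T ∈ FR 𝕜 X, ∀ x : X, ∀ f ∈ F, ((1 + η : ℝ) : 𝕜) * f (T x) = S f x := by
  set G := LinearMap.range (adj S : X →ₗ[𝕜] StrongDual 𝕜 (StrongDual 𝕜 X)) with hG
  have hGfd : FiniteDimensional 𝕜 G := adj_fd S hS.1
  obtain ⟨R, hR1, hR2, -⟩ := plr G F η hη
  let A : X →L[𝕜] G := (adj S).codRestrict G (fun x => ⟨x, rfl⟩)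
  have hA : ∀ x, ‖A x‖ ≤ ‖x‖ := fun x => adj_norm S hS.2 x
  have hpos : (0 : ℝ) < 1 + η := by linarith
  have hne : ((1 + η : ℝ) : 𝕜) ≠ 0 := by exact_mod_cast hpos.ne'
  refine ⟨((1 + η : ℝ) : 𝕜)⁻¹ • (R ∘L A), ⟨?_, ?_⟩, ?_⟩
  · have h3 : LinearMap.range (((((1 + η : ℝ) : 𝕜)⁻¹ • (R ∘L A) : X →L[𝕜] X)) : X →ₗ[𝕜] X) ≤
        LinearMap.range (R : G →ₗ[𝕜] X) := by
      rintro _ ⟨x, rfl⟩
      exact Submodule.smul_mem _ _ ⟨A x, rfl⟩
    exact Submodule.finiteDimensional_of_le h3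
  · refine ContinuousLinearMap.opNorm_le_bound _ zero_le_one fun x => ?_
    show ‖((1 + η : ℝ) : 𝕜)⁻¹ • R (A x)‖ ≤ 1 * ‖x‖
    rw [norm_smul, norm_inv, RCLike.norm_ofReal, abs_of_pos hpos, one_mul,
      inv_mul_le_iff₀ hpos]
    refine (R.le_opNorm _).trans ?_
    exact mul_le_mul hR1 (hA x) (norm_nonneg _) hpos.le
  · intro x f hf
    show ((1 + η : ℝ) : 𝕜) * f (((1 + η : ℝ) : 𝕜)⁻¹ • R (A x)) = S f x
    rw [map_smul, smul_eq_mul, ← mul_assoc, mul_inv_cancel₀ hne, one_mul, hR2 (A x) f hf]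
    rfl

theorem hasMAP_norm_iff : HasMAP (normSeminorm 𝕜 X) ↔
    ∀ K : Set X, IsCompact K → ∀ ε : ℝ, 0 < ε → ∃ T ∈ FR 𝕜 X, ∀ x ∈ K, ‖T x - x‖ ≤ ε := by
  constructor
  · intro h K hK ε hε
    obtain ⟨T, h1, h2, h3⟩ := h K hK ε hε
    refine ⟨T, ⟨h1, ?_⟩, h3⟩
    refine ContinuousLinearMap.opNorm_le_bound _ zero_le_one fun x => ?_
    rw [one_mul]
    exact h2 x
  · intro h K hK ε hε
    obtain ⟨T, h1, h3⟩ := h K hK ε hε
    refine ⟨T, h1.1, fun x => ?_, h3⟩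
    show ‖T x‖ ≤ ‖x‖
    refine (T.le_opNorm x).trans ?_
    have := norm_nonneg x
    have := h1.2
    nlinarith

theorem finite_approx (h : HasMAP (normSeminorm 𝕜 (StrongDual 𝕜 X))) {κ : Type} [Fintype κ]
    (x : κ → X) (δ : ℝ) (hδ : 0 < δ) : ∃ T ∈ FR 𝕜 X, ∀ k, ‖T (x k) - x k‖ ≤ δ := by
  classical
  set C : Set (κ → X) := {v | ∃ T ∈ FR 𝕜 X, v = fun k => T (x k)} with hC
  by_cases hx : x ∈ closure C
  · obtain ⟨v, ⟨T, hT, rfl⟩, hv⟩ := Metric.mem_closure_iff.mp hx δ hδ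
    refine ⟨T, hT, fun k => ?_⟩
    rw [dist_comm, dist_eq_norm] at hv
    exact (norm_le_pi_norm _ k).trans hv.le
  · exfalso
    have hconv : ∀ a ∈ C, ∀ b ∈ C, ∀ s t : ℝ, 0 ≤ s → 0 ≤ t → s + t = 1 →
        (s : 𝕜) • a + (t : 𝕜) • b ∈ C := by
      rintro _ ⟨S, hS, rfl⟩ _ ⟨T, hT, rfl⟩ s t hs ht hst
      exact ⟨_, FR_conv S hS T hT s t hs ht hst, rfl⟩
    obtain ⟨f, c, h1, h2⟩ := hb_sep (𝕜 := 𝕜) C hconv _ hx
    have hc0 : 0 < c := by
      have := h1 0 ⟨0, ⟨by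
        have : LinearMap.range ((0 : X →L[𝕜] X) : X →ₗ[𝕜] X) = ⊥ := by simp
        rw [this]; infer_instance, by simp⟩, rfl⟩
      simpa using this
    set g : κ → StrongDual 𝕜 X := fun k => comp' f k with hg
    set F : Submodule 𝕜 (StrongDual 𝕜 X) := Submodule.span 𝕜 (Set.range g) with hF
    have hFfd : FiniteDimensional 𝕜 F := FiniteDimensional.span_of_finite 𝕜 (Set.finite_range _)
    set M : ℝ := ∑ k, ‖x k‖ with hM
    have hM0 : 0 ≤ M := Finset.sum_nonneg fun k _ => norm_nonneg _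
    set d : ℝ := RCLike.re (f x) - c with hd
    have hd0 : 0 < d := by linarith
    set η : ℝ := d / (M + c + 1) with hη
    have hη0 : 0 < η := by positivity
    have hηd : η * (M + c + 1) = d := by rw [hη]; field_simp
    obtain ⟨S, hS, hS2⟩ := hasMAP_norm_iff.1 h (Set.range g) (Set.finite_range g).isCompact η hη0
    obtain ⟨T, hT, hT2⟩ := exists_predual S hS F η hη0
    have h3 := h1 _ ⟨T, hT, rfl⟩
    have h4 : ((1 + η : ℝ) : 𝕜) * f (fun k => T (x k)) = ∑ k, S (g k) (x k) := by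
      rw [comp'_sum, Finset.mul_sum]
      exact Finset.sum_congr rfl fun k _ =>
        hT2 (x k) (g k) (Submodule.subset_span ⟨k, rfl⟩)
    have h5 : ‖f x - ∑ k, S (g k) (x k)‖ ≤ η * M := by
      rw [comp'_sum, ← Finset.sum_sub_distrib, hM, Finset.mul_sum]
      refine (norm_sum_le _ _).trans (Finset.sum_le_sum fun k _ => ?_)
      have h6 : comp' f k (x k) - S (g k) (x k) = -((S (g k) - g k) (x k)) := by
        rw [sub_apply, neg_sub]
      rw [h6, norm_neg]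
      exact ((S (g k) - g k).le_opNorm _).trans
        (mul_le_mul_of_nonneg_right (hS2 _ ⟨k, rfl⟩) (norm_nonneg _))
    have h7 := (RCLike.re_le_norm _).trans h5
    rw [map_sub, ← h4, RCLike.re_ofReal_mul] at h7
    have h8 : (1 + η) * RCLike.re (f fun k => T (x k)) ≤ (1 + η) * c :=
      mul_le_mul_of_nonneg_left h3.le (by linarith)
    nlinarith

/-- If the dual has the metric approximation property, so does the space. -/
theorem hasMAP_of_dual (h : HasMAP (normSeminorm 𝕜 (StrongDual 𝕜 X))) :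
    HasMAP (normSeminorm 𝕜 X) := by
  refine hasMAP_norm_iff.2 fun K hK ε hε => ?_
  obtain ⟨t, -, htf, htc⟩ := hK.finite_cover_balls (show 0 < ε / 3 by positivity)
  have _ : Fintype t := htf.fintype
  obtain ⟨T, hT, hT2⟩ := finite_approx h (fun k : t => (k : X)) (ε / 3) (by positivity)
  refine ⟨T, hT, fun x hx => ?_⟩
  have h1 := htc hx
  rw [Set.mem_iUnion₂] at h1
  obtain ⟨k, hk, hxk⟩ := h1
  rw [Metric.mem_ball, dist_eq_norm] at hxk
  have h2 : T x - x = T (x - k) + (T k - k) - (x - k) := by rw [map_sub]; abel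
  have h3 : ‖T (x - k)‖ ≤ ‖x - k‖ := (T.le_opNorm _).trans (by
    have := norm_nonneg (x - k)
    have := hT.2
    nlinarith)
  have h4 : ‖T k - k‖ ≤ ε / 3 := hT2 ⟨k, hk⟩
  rw [h2]
  refine (norm_sub_le _ _).trans ?_
  have h5 := norm_add_le (T (x - k)) (T k - k)
  linarith

end Dual

section Transfer

variable {X Y : Type} [NormedAddCommGroup X] [NormedSpace 𝕜 X] [NormedAddCommGroup Y]
  [NormedSpace 𝕜 Y]

theorem hasMAP_transfer (e : X ≃L[𝕜] Y) (N : Seminorm 𝕜 X) (N' : Seminorm 𝕜 Y)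
    (hN : ∀ x, N' (e x) = N x) (h : HasMAP N) : HasMAP N' := by
  intro K hK ε hε
  obtain ⟨T, h1, h2, h3⟩ := h (e.symm '' K) (hK.image e.symm.continuous) ε hε
  refine ⟨(e : X →L[𝕜] Y) ∘L T ∘L (e.symm : Y →L[𝕜] X), ?_, fun y => ?_, fun y hy => ?_⟩
  · have h4 : LinearMap.range (((e : X →L[𝕜] Y) ∘L T ∘L (e.symm : Y →L[𝕜] X) : Y →L[𝕜] Y) :
        Y →ₗ[𝕜] Y) ≤ (LinearMap.range (T : X →ₗ[𝕜] X)).map ((e : X →L[𝕜] Y) : X →ₗ[𝕜] Y) := by
      rintro _ ⟨y, rfl⟩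
      exact ⟨T (e.symm y), ⟨_, rfl⟩, rfl⟩
    exact Submodule.finiteDimensional_of_le h4
  · show N' (e (T (e.symm y))) ≤ N' y
    rw [hN]
    conv_rhs => rw [← e.apply_symm_apply y, hN]
    exact h2 _
  · show N' (e (T (e.symm y)) - y) ≤ ε
    conv_lhs => rw [← e.apply_symm_apply y]
    rw [e.symm_apply_apply, ← map_sub, hN]
    exact h3 _ ⟨y, hy, rfl⟩

theorem renormFails_of_equiv (e : X ≃L[𝕜] Y) (h : ¬ HasMAP (normSeminorm 𝕜 Y)) :
    RenormFailsMAP 𝕜 X := by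
  refine ⟨(normSeminorm 𝕜 Y).comp ((e : X →L[𝕜] Y) : X →ₗ[𝕜] Y),
    ⟨(‖(e.symm : Y →L[𝕜] X)‖ + 1)⁻¹, ‖(e : X →L[𝕜] Y)‖, by positivity, fun x => ⟨?_, ?_⟩⟩, ?_⟩
  · show (‖(e.symm : Y →L[𝕜] X)‖ + 1)⁻¹ * ‖x‖ ≤ ‖e x‖
    rw [inv_mul_le_iff₀ (by positivity)]
    have h1 := (e.symm : Y →L[𝕜] X).le_opNorm (e x)
    have h2 : (e.symm : Y →L[𝕜] X) (e x) = x := e.symm_apply_apply x
    rw [h2] at h1
    have := norm_nonneg (e x)
    nlinarith
  · exact (e : X →L[𝕜] Y).le_opNorm x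
  · exact fun h' => h (hasMAP_transfer e _ _ (fun x => rfl) h')

end Transfer

section Ren

variable {X : Type} [NormedAddCommGroup X] [NormedSpace 𝕜 X]

/-- an equivalent norm with its constants -/
structure EqN (𝕜 : Type) [RCLike 𝕜] (X : Type) [NormedAddCommGroup X] [NormedSpace 𝕜 X] where
  N : Seminorm 𝕜 X
  a : ℝ
  b : ℝ
  ha : 0 < a
  h : ∀ x, a * ‖x‖ ≤ N x ∧ N x ≤ b * ‖x‖

/-- the space with the new norm -/
def Ren (_ : EqN 𝕜 X) : Type := X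

instance (E : EqN 𝕜 X) : AddCommGroup (Ren E) := inferInstanceAs (AddCommGroup X)
instance (E : EqN 𝕜 X) : Module 𝕜 (Ren E) := inferInstanceAs (Module 𝕜 X)

noncomputable instance (E : EqN 𝕜 X) : NormedAddCommGroup (Ren E) :=
  AddGroupNorm.toNormedAddCommGroup
    { toFun := fun x => E.N x
      map_zero' := map_zero E.N
      add_le' := fun x y => map_add_le_add E.N x y
      neg' := fun x => map_neg_eq_map E.N x
      eq_zero_of_map_eq_zero' := fun x hx => by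
        have h1 := (E.h x).1
        have h2 : E.N x = 0 := hx
        rw [h2] at h1
        have h3 : ‖(show X from x)‖ ≤ 0 := by
          by_contra hc
          have := mul_pos E.ha (not_le.1 hc)
          linarith
        exact norm_le_zero_iff.1 h3 }

theorem ren_norm (E : EqN 𝕜 X) (x : Ren E) : ‖x‖ = E.N x := rfl

noncomputable instance (E : EqN 𝕜 X) : NormedSpace 𝕜 (Ren E) where
  norm_smul_le a x := (map_smul_eq_mul E.N a x).le

/-- the identity -/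
noncomputable def renEquiv (E : EqN 𝕜 X) : Ren E ≃L[𝕜] X :=
  LinearEquiv.toContinuousLinearEquivOfBounds
    ({ toFun := fun x => x, invFun := fun x => x, map_add' := fun _ _ => rfl,
       map_smul' := fun _ _ => rfl, left_inv := fun _ => rfl, right_inv := fun _ => rfl } :
      Ren E ≃ₗ[𝕜] X) E.a⁻¹ E.b
    (fun x => by
      show ‖(show X from x)‖ ≤ E.a⁻¹ * E.N x
      rw [le_inv_mul_iff₀ E.ha]
      exact (E.h x).1)
    (fun x => (E.h x).2)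

/-- a renorming of a space without the property gives one of the dual -/
theorem renormFails_dual (h : RenormFailsMAP 𝕜 X) : RenormFailsMAP 𝕜 (StrongDual 𝕜 X) := by
  obtain ⟨N, ⟨a, b, ha, hab⟩, hN⟩ := h
  let E : EqN 𝕜 X := ⟨N, a, b, ha, hab⟩
  refine renormFails_of_equiv
    ((renEquiv E).symm.arrowCongr (ContinuousLinearEquiv.refl 𝕜 𝕜)) fun h' => hN ?_
  exact hasMAP_transfer (renEquiv E) _ N (fun x => rfl) (hasMAP_of_dual h')

theorem renormFails_transfer {Y : Type} [NormedAddCommGroup Y] [NormedSpace 𝕜 Y]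
    (e : Y ≃L[𝕜] X) (h : RenormFailsMAP 𝕜 X) : RenormFailsMAP 𝕜 Y := by
  obtain ⟨N, ⟨a, b, ha, hab⟩, hN⟩ := h
  let E : EqN 𝕜 X := ⟨N, a, b, ha, hab⟩
  refine renormFails_of_equiv (e.trans (renEquiv E).symm) fun h' => hN ?_
  exact hasMAP_transfer (renEquiv E) _ N (fun x => rfl) h'

end Ren

end Pool.Agent.H547Z.MAP
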