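import Mathlib
import Pool.Agent.H547Z.MAP.Dual
import Pool.Agent.Helper234.L1MAP.Main

set_option autoImplicit false

namespace Pool.Agent.H547Z.MAP

open Pool.Agent.Helper234.L1MAP (HasMAP RenormFailsMAP)
open scoped ENNReal NNReal

variable {𝕜 : Type} [RCLike 𝕜]

theorem mul_bound (_i : ℕ) : ‖ContinuousLinearMap.mul 𝕜 𝕜‖ ≤ ((1 : ℝ≥0) : ℝ) :=
  ContinuousLinearMap.opNorm_mul_le 𝕜 𝕜

/-- the pairing of bounded and summable sequences -/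
noncomputable def pairL (𝕜 : Type) [RCLike 𝕜] :
    lp (fun _ : ℕ => 𝕜) ∞ →L[𝕜] StrongDual 𝕜 (lp (fun _ : ℕ => 𝕜) 1) :=
  lp.dualPairing ∞ 1 (fun _ : ℕ => ContinuousLinearMap.mul 𝕜 𝕜) (K := 1) mul_bound

theorem pairL_apply (y : lp (fun _ : ℕ => 𝕜) ∞) (x : lp (fun _ : ℕ => 𝕜) 1) :
    pairL 𝕜 y x = ∑' i, y i * x i := rfl

theorem pairL_single (y : lp (fun _ : ℕ => 𝕜) ∞) (n : ℕ) :
    pairL 𝕜 y (lp.single 1 n (1 : 𝕜)) = y n := by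
  rw [pairL_apply, tsum_eq_single n]
  · rw [lp.single_apply_self, mul_one]
  · intro m hm
    rw [lp.single_apply_ne _ _ _ hm, mul_zero]

theorem pairL_inj : LinearMap.ker (pairL 𝕜 : lp (fun _ : ℕ => 𝕜) ∞ →ₗ[𝕜]
    StrongDual 𝕜 (lp (fun _ : ℕ => 𝕜) 1)) = ⊥ := by
  refine LinearMap.ker_eq_bot'.2 fun y hy => ?_
  ext n
  have h : pairL 𝕜 y = 0 := hy
  rw [← pairL_single y n, h]
  rfl

theorem pairL_surj : LinearMap.range (pairL 𝕜 : lp (fun _ : ℕ => 𝕜) ∞ →ₗ[𝕜]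
    StrongDual 𝕜 (lp (fun _ : ℕ => 𝕜) 1)) = ⊤ := by
  refine LinearMap.range_eq_top.2 fun φ => ?_
  have hb : Memℓp (fun n : ℕ => φ (lp.single 1 n (1 : 𝕜))) ∞ := by
    refine memℓp_infty ⟨‖φ‖, ?_⟩
    rintro _ ⟨n, rfl⟩
    refine (φ.le_opNorm _).trans ?_
    rw [lp.norm_single (by norm_num), norm_one, mul_one]
  refine ⟨⟨_, hb⟩, ?_⟩
  ext x
  show ∑' i, φ (lp.single 1 i (1 : 𝕜)) * x i = φ x
  have h1 := (lp.hasSum_single (p := 1) (by norm_num) x).mapL φ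
  rw [← h1.tsum_eq]
  refine tsum_congr fun i => ?_
  have h2 : (lp.single 1 i (x i) : lp (fun _ : ℕ => 𝕜) 1) = x i • lp.single 1 i (1 : 𝕜) := by
    rw [← lp.single_smul, smul_eq_mul, mul_one]
  rw [h2, map_smul, smul_eq_mul, mul_comm]

theorem linf_of_l1 (h : RenormFailsMAP 𝕜 (lp (fun _ : ℕ => 𝕜) 1)) :
    RenormFailsMAP 𝕜 (lp (fun _ : ℕ => 𝕜) ∞) :=
  renormFails_transfer (ContinuousLinearEquiv.ofBijective (pairL 𝕜) pairL_inj pairL_surj)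
    (renormFails_dual h)

theorem linf_final : RenormFailsMAP ℝ (lp (fun _ : ℕ => ℝ) ∞) ∧
    RenormFailsMAP ℂ (lp (fun _ : ℕ => ℂ) ∞) :=
  ⟨linf_of_l1 Pool.Agent.Helper234.L1MAP.final.1, linf_of_l1 Pool.Agent.Helper234.L1MAP.final.2⟩

end Pool.Agent.H547Z.MAP
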